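import Pool.Agent.P8H48.DC.Stm

/-!
# Project DC: rings of the open part `f ≠ 0` and of the lines `z = c`, `f = 0`
-/

set_option autoImplicit false

open MvPolynomial Pool.Agent.P8H48.DC

namespace Pool.Agent.P8H62.DC

section opn

variable {R A : Type} [CommRing R] [CommRing A] [Algebra R A] (S : Finset R) (f : A)

/-- the variable `t` -/
noncomputable def ct : Cov S f := Ideal.Quotient.mk _ (X 0)

/-- the variable `z` -/
noncomputable def cz : Cov S f := Ideal.Quotient.mk _ (X 1)

lemma cf_eq : cf S f = algebraMap A (Cov S f) f := rfl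

lemma cov_rel : ∏ c ∈ S, (cz S f - algebraMap A (Cov S f) (algebraMap R A c)) =
    ct S f * algebraMap A (Cov S f) f := by
  have h : (Ideal.Quotient.mk (Ideal.span {eqn S f})) (eqn S f) = 0 :=
    Ideal.Quotient.eq_zero_iff_mem.2 (Ideal.mem_span_singleton_self _)
  rw [eqn, map_sub, map_prod, map_mul, sub_eq_zero] at h
  exact h

/-- `A_f[z]` -/
abbrev Mf : Type := MvPolynomial (Fin 1) (Localization.Away f)

/-- the value of `t` -/
noncomputable def t0 : Mf f := C (IsLocalization.Away.invSelf f) *
  ∏ c ∈ S, (X 0 - algebraMap A (Mf f) (algebraMap R A c))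

/-- to `A_f[z]` -/
noncomputable def gm : Cov S f →ₐ[A] Mf f :=
  Ideal.Quotient.liftₐ _ (aeval ![t0 S f, X 0]) (by
    intro a ha
    obtain ⟨b, rfl⟩ := Ideal.mem_span_singleton'.1 ha
    have h : (aeval ![t0 S f, X 0] : MvPolynomial (Fin 2) A →ₐ[A] Mf f) (eqn S f) = 0 := by
      rw [eqn, map_sub, map_prod, map_mul, aeval_X, aeval_C]
      have h1 : algebraMap A (Mf f) f = C (algebraMap A (Localization.Away f) f) := rfl
      have h2 : (C (IsLocalization.Away.invSelf f) : Mf f) *
          C (algebraMap A (Localization.Away f) f) = 1 := by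
        rw [← map_mul, mul_comm, IsLocalization.Away.mul_invSelf, map_one]
      have h3 : ∏ c ∈ S, (aeval ![t0 S f, X 0] : MvPolynomial (Fin 2) A →ₐ[A] Mf f)
          (X 1 - C (algebraMap R A c)) =
          ∏ c ∈ S, (X 0 - algebraMap A (Mf f) (algebraMap R A c)) := by
        refine Finset.prod_congr rfl fun c _ => ?_
        rw [map_sub, aeval_X, aeval_C]
        rfl
      rw [h3, h1]
      change _ - t0 S f * _ = 0
      rw [t0, mul_right_comm, h2, one_mul, sub_self]
    rw [map_mul, h, mul_zero])

lemma gm_t : gm S f (ct S f) = t0 S f := by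
  change (aeval ![t0 S f, X 0] : MvPolynomial (Fin 2) A →ₐ[A] Mf f) (X 0) = _
  rw [aeval_X]
  rfl

lemma gm_z : gm S f (cz S f) = X 0 := by
  change (aeval ![t0 S f, X 0] : MvPolynomial (Fin 2) A →ₐ[A] Mf f) (X 1) = _
  rw [aeval_X]
  rfl

lemma gm_unit : IsUnit (gm S f (cf S f)) := by
  rw [cf_eq, AlgHom.commutes]
  have h1 : algebraMap A (Mf f) f = C (algebraMap A (Localization.Away f) f) := rfl
  rw [h1]
  exact (IsLocalization.Away.algebraMap_isUnit f).map _

/-- the open part -/
abbrev Qf : Type := Localization.Away (cf S f)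

/-- from the localisation -/
noncomputable def Fm : Qf S f →+* Mf f :=
  IsLocalization.Away.lift (S := Qf S f) (g := (gm S f).toRingHom) (cf S f) (gm_unit S f)

lemma fm_alg (q : Cov S f) : Fm S f (algebraMap (Cov S f) (Qf S f) q) = gm S f q :=
  IsLocalization.Away.lift_eq (S := Qf S f) (g := (gm S f).toRingHom) (cf S f) (gm_unit S f) q

lemma fm_algA (a : A) : Fm S f (algebraMap A (Qf S f) a) = algebraMap A (Mf f) a := by
  rw [IsScalarTower.algebraMap_apply A (Cov S f) (Qf S f), fm_alg, AlgHom.commutes]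

lemma unit_f : IsUnit (algebraMap A (Qf S f) f) := by
  rw [IsScalarTower.algebraMap_apply A (Cov S f) (Qf S f), ← cf_eq]
  exact IsLocalization.Away.algebraMap_isUnit (cf S f)

/-- from `A_f` -/
noncomputable def Lm : Localization.Away f →ₐ[A] Qf S f :=
  { (IsLocalization.Away.lift (S := Localization.Away f) (g := algebraMap A (Qf S f)) f
      (unit_f S f)) with
    commutes' := fun a => IsLocalization.Away.lift_eq f (unit_f S f) a }

/-- from `A_f[z]` -/
noncomputable def Gm : Mf f →ₐ[A] Qf S f :=
  aevalTower (Lm S f) (fun _ => algebraMap (Cov S f) (Qf S f) (cz S f))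

lemma gm_t0 : Gm S f (t0 S f) = algebraMap (Cov S f) (Qf S f) (ct S f) := by
  rw [t0, map_mul, map_prod, Gm, aevalTower_C]
  have h1 : ∏ c ∈ S, (aevalTower (Lm S f) (fun _ => algebraMap (Cov S f) (Qf S f) (cz S f)) :
      Mf f →ₐ[A] Qf S f) (X 0 - algebraMap A (Mf f) (algebraMap R A c)) =
      algebraMap (Cov S f) (Qf S f)
        (∏ c ∈ S, (cz S f - algebraMap A (Cov S f) (algebraMap R A c))) := by
    rw [map_prod]
    refine Finset.prod_congr rfl fun c _ => ?_
    rw [map_sub, aevalTower_X, AlgHom.commutes, map_sub,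
      ← IsScalarTower.algebraMap_apply A (Cov S f) (Qf S f)]
  rw [h1, cov_rel, map_mul, ← IsScalarTower.algebraMap_apply A (Cov S f) (Qf S f)]
  have h2 : algebraMap A (Qf S f) f = Lm S f (algebraMap A (Localization.Away f) f) :=
    ((Lm S f).commutes f).symm
  rw [h2, mul_left_comm, ← map_mul, mul_comm (IsLocalization.Away.invSelf f),
    IsLocalization.Away.mul_invSelf, map_one, mul_one]

lemma gf (q : Qf S f) : Gm S f (Fm S f q) = q := by
  have h : ((Gm S f).toRingHom.comp (Fm S f)) = RingHom.id (Qf S f) := by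
    refine IsLocalization.ringHom_ext (Submonoid.powers (cf S f)) ?_
    refine Ideal.Quotient.ringHom_ext ?_
    refine MvPolynomial.ringHom_ext ?_ ?_
    · intro a
      change Gm S f (Fm S f (algebraMap (Cov S f) (Qf S f) (algebraMap A (Cov S f) a))) =
        algebraMap (Cov S f) (Qf S f) (algebraMap A (Cov S f) a)
      rw [← IsScalarTower.algebraMap_apply A (Cov S f) (Qf S f), fm_algA, AlgHom.commutes]
    · intro i
      fin_cases i
      · change Gm S f (Fm S f (algebraMap (Cov S f) (Qf S f) (ct S f))) =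
          algebraMap (Cov S f) (Qf S f) (ct S f)
        rw [fm_alg, gm_t, gm_t0]
      · change Gm S f (Fm S f (algebraMap (Cov S f) (Qf S f) (cz S f))) =
          algebraMap (Cov S f) (Qf S f) (cz S f)
        rw [fm_alg, gm_z, Gm, aevalTower_X]
  exact congrArg (fun g : Qf S f →+* Qf S f => g q) h

lemma fg (m : Mf f) : Fm S f (Gm S f m) = m := by
  have h : ((Fm S f).comp (Gm S f).toRingHom) = RingHom.id (Mf f) := by
    refine MvPolynomial.ringHom_ext ?_ ?_
    · intro l
      have h2 : (((Fm S f).comp (Gm S f).toRingHom).comp C) = (C : Localization.Away f →+* Mf f) := by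
        refine IsLocalization.ringHom_ext (Submonoid.powers f) ?_
        refine RingHom.ext fun a => ?_
        change Fm S f (Gm S f (algebraMap A (Mf f) a)) = algebraMap A (Mf f) a
        rw [AlgHom.commutes, fm_algA]
      exact congrArg (fun g : Localization.Away f →+* Mf f => g l) h2
    · intro i
      have hi : i = 0 := Subsingleton.elim _ _
      subst hi
      change Fm S f (Gm S f (X 0)) = X 0
      rw [Gm, aevalTower_X, fm_alg, gm_z]
  exact congrArg (fun g : Mf f →+* Mf f => g m) h

/-- **The open part.** -/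
noncomputable def opnE : Mf f ≃ₐ[A] Qf S f :=
  AlgEquiv.ofBijective (Gm S f) (Function.bijective_iff_has_inverse.2 ⟨Fm S f, fg S f, gf S f⟩)

end opn

section line

variable {A : Type} [CommRing A] (f c : A)

/-- the line `z = c` over `A / f` -/
abbrev Ln : Type := MvPolynomial (Fin 2) A ⧸
  (Ideal.span {(C f : MvPolynomial (Fin 2) A)} ⊔ Ideal.span {(X 1 - C c : MvPolynomial (Fin 2) A)})

/-- forward -/
noncomputable def lnF : Ln f c →ₐ[A] MvPolynomial (Fin 1) (A ⧸ Ideal.span {f}) :=
  Ideal.Quotient.liftₐ _ (aeval ![X 0, algebraMap A _ c]) (by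
    intro a ha
    have hle : (Ideal.span {(C f : MvPolynomial (Fin 2) A)} ⊔
        Ideal.span {(X 1 - C c : MvPolynomial (Fin 2) A)}) ≤
        RingHom.ker (aeval ![X 0, algebraMap A _ c] :
          MvPolynomial (Fin 2) A →ₐ[A] MvPolynomial (Fin 1) (A ⧸ Ideal.span {f})) := by
      refine sup_le ?_ ?_
      · rw [Ideal.span_singleton_le_iff_mem, RingHom.mem_ker, aeval_C]
        have h1 : algebraMap A (MvPolynomial (Fin 1) (A ⧸ Ideal.span {f})) f =
            C (Ideal.Quotient.mk (Ideal.span {f}) f) := rfl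
        rw [h1, Ideal.Quotient.eq_zero_iff_mem.2 (Ideal.mem_span_singleton_self f), map_zero]
      · rw [Ideal.span_singleton_le_iff_mem, RingHom.mem_ker, map_sub, aeval_X, aeval_C]
        exact sub_self _
    exact hle ha)

/-- back -/
noncomputable def lnG : MvPolynomial (Fin 1) (A ⧸ Ideal.span {f}) →ₐ[A] Ln f c :=
  aevalTower (Ideal.Quotient.liftₐ (Ideal.span {f}) (Algebra.ofId A (Ln f c)) (by
    intro a ha
    obtain ⟨b, rfl⟩ := Ideal.mem_span_singleton'.1 ha
    rw [map_mul]
    have h : Algebra.ofId A (Ln f c) f = 0 := by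
      change Ideal.Quotient.mk _ (C f) = 0
      exact Ideal.Quotient.eq_zero_iff_mem.2
        (Ideal.mem_sup_left (Ideal.mem_span_singleton_self _))
    rw [h, mul_zero])) (fun _ => Ideal.Quotient.mk _ (X 0))

/-- **The line.** -/
noncomputable def lnE : MvPolynomial (Fin 1) (A ⧸ Ideal.span {f}) ≃ₐ[A] Ln f c :=
  AlgEquiv.ofAlgHom (lnG f c) (lnF f c)
    (by
      refine Ideal.Quotient.algHom_ext _ (MvPolynomial.algHom_ext fun i => ?_)
      fin_cases i
      · change lnG f c (lnF f c (Ideal.Quotient.mk _ (X 0))) = Ideal.Quotient.mk _ (X 0)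
        have h1 : lnF f c (Ideal.Quotient.mk _ (X 0)) = X 0 := by
          change (aeval ![X 0, algebraMap A _ c] : MvPolynomial (Fin 2) A →ₐ[A]
            MvPolynomial (Fin 1) (A ⧸ Ideal.span {f})) (X 0) = _
          rw [aeval_X]
          rfl
        rw [h1, lnG, aevalTower_X]
      · change lnG f c (lnF f c (Ideal.Quotient.mk _ (X 1))) = Ideal.Quotient.mk _ (X 1)
        have h1 : lnF f c (Ideal.Quotient.mk _ (X 1)) = algebraMap A _ c := by
          change (aeval ![X 0, algebraMap A _ c] : MvPolynomial (Fin 2) A →ₐ[A]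
            MvPolynomial (Fin 1) (A ⧸ Ideal.span {f})) (X 1) = _
          rw [aeval_X]
          rfl
        rw [h1, AlgHom.commutes]
        symm
        change Ideal.Quotient.mk _ (X 1) = Ideal.Quotient.mk _ (C c)
        rw [Ideal.Quotient.eq]
        exact Ideal.mem_sup_right (Ideal.mem_span_singleton_self _))
    (by
      refine MvPolynomial.algHom_ext' ?_ ?_
      · exact Ideal.Quotient.algHom_ext _ (Subsingleton.elim _ _)
      · intro i
        have hi : i = 0 := Subsingleton.elim _ _
        subst hi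
        change lnF f c (lnG f c (X 0)) = X 0
        rw [lnG, aevalTower_X]
        change (aeval ![X 0, algebraMap A _ c] : MvPolynomial (Fin 2) A →ₐ[A]
          MvPolynomial (Fin 1) (A ⧸ Ideal.span {f})) (X 0) = _
        rw [aeval_X]
        rfl)

end line

end Pool.Agent.P8H62.DC
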