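import Pool.Agent.P8H62.DC.Aff

/-!
# Project DC, package CONV: from `A` and `A / f` to the cover
-/

set_option autoImplicit false

open CategoryTheory AlgebraicGeometry MvPolynomial Pool.Agent.Y116.UV Pool.Agent.Z125.UN
open Pool.Agent.P8H48.DC

namespace Pool.Agent.P8H62.DC

section

variable {R : Type} [CommRing R] {sep : Prop} {P : Sch R → Prop} (hP : Bnd sep P)

include hP

/-- two comaximal elements with product zero -/
lemma p_split {E : Type} [CommRing E] [Algebra R E] [Algebra.FiniteType R E] {u v : E}
    (huv : u * v = 0) (hc : IsCoprime u v) (hu : P (aff R (E ⧸ Ideal.span {u})))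
    (hv : P (aff R (E ⧸ Ideal.span {v}))) : P (aff R E) := by
  refine ring_total hP u hu (zero_div hP huv hv (p_empty hP _ ?_))
  rw [Ideal.Quotient.subsingleton_iff, Ideal.eq_top_iff_one, Ideal.mem_span_singleton']
  obtain ⟨a, b, hab⟩ := hc
  refine ⟨Ideal.Quotient.mk _ a, ?_⟩
  rw [← map_mul, ← map_one (Ideal.Quotient.mk (Ideal.span {v})), ← hab, map_add, map_mul _ b v]
  have h : (Ideal.Quotient.mk (Ideal.span {v})) v = 0 :=
    Ideal.Quotient.eq_zero_iff_mem.2 (Ideal.mem_span_singleton_self _)
  rw [h, mul_zero, add_zero]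

variable {A : Type} [CommRing A] [Algebra R A] [Algebra.FiniteType R A] (f : A)

/-- the closed part -/
lemma p_lines (S : Finset R) : UnitDiff S → P (aff R (A ⧸ Ideal.span {f})) →
    P (aff R (MvPolynomial (Fin 2) A ⧸ (Ideal.span {(C f : MvPolynomial (Fin 2) A)} ⊔
      Ideal.span {∏ c ∈ S, (X 1 - C (algebraMap R A c) : MvPolynomial (Fin 2) A)}))) := by
  classical
  induction S using Finset.induction_on with
  | empty =>
    intro _ _
    refine p_empty hP _ ?_
    rw [Ideal.Quotient.subsingleton_iff, Finset.prod_empty, Ideal.span_singleton_one, sup_top_eq]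
  | insert c T hc ih =>
    intro hS hA
    have hT : UnitDiff T := fun a ha b hb hab =>
      hS a (Finset.mem_insert_of_mem ha) b (Finset.mem_insert_of_mem hb) hab
    have ih := ih hT hA
    set g := ∏ c ∈ T, (X 1 - C (algebraMap R A c) : MvPolynomial (Fin 2) A) with hg
    set l := (X 1 - C (algebraMap R A c) : MvPolynomial (Fin 2) A) with hl
    rw [Finset.prod_insert hc]
    set I := Ideal.span {(C f : MvPolynomial (Fin 2) A)} ⊔ Ideal.span {l * g} with hI
    have hft : Algebra.FiniteType R (MvPolynomial (Fin 2) A) :=
      Algebra.FiniteType.trans (S := A) inferInstance inferInstance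
    have hft2 : Algebra.FiniteType R (MvPolynomial (Fin 2) A ⧸ I) :=
      Algebra.FiniteType.trans (S := MvPolynomial (Fin 2) A) inferInstance inferInstance
    have h1 : I ⊔ Ideal.span {g} = Ideal.span {(C f : MvPolynomial (Fin 2) A)} ⊔
        Ideal.span {g} := by
      rw [hI, sup_assoc]
      congr 1
      refine sup_eq_right.2 ?_
      rw [Ideal.span_singleton_le_iff_mem]
      exact Ideal.mul_mem_left _ _ (Ideal.mem_span_singleton_self _)
    have h2 : I ⊔ Ideal.span {l} = Ideal.span {(C f : MvPolynomial (Fin 2) A)} ⊔
        Ideal.span {l} := by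
      rw [hI, sup_assoc]
      congr 1
      refine sup_eq_right.2 ?_
      rw [Ideal.span_singleton_le_iff_mem]
      exact Ideal.mul_mem_right _ _ (Ideal.mem_span_singleton_self _)
    refine p_split hP (u := Ideal.Quotient.mk I l) (v := Ideal.Quotient.mk I g) ?_ ?_
      (quot_mk hP I _ ?_) (quot_mk hP I _ ?_)
    · rw [← map_mul, Ideal.Quotient.eq_zero_iff_mem]
      exact Ideal.mem_sup_right (Ideal.mem_span_singleton_self _)
    · refine IsCoprime.map ?_ (Ideal.Quotient.mk I)
      rw [hg]
      refine IsCoprime.prod_right fun b hb => ?_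
      have hcb : c ≠ b := fun h => hc (h ▸ hb)
      have hu : IsUnit (c - b) := hS c (Finset.mem_insert_self _ _) b
        (Finset.mem_insert_of_mem hb) hcb
      obtain ⟨w, hw⟩ := hu.exists_right_inv
      refine ⟨-C (algebraMap R A w), C (algebraMap R A w), ?_⟩
      have h3 : -C (algebraMap R A w) * l + C (algebraMap R A w) *
          (X 1 - C (algebraMap R A b)) =
          (C (algebraMap R A ((c - b) * w)) : MvPolynomial (Fin 2) A) := by
        rw [hl, map_mul, map_sub, map_mul, map_sub]
        ring
      rw [h3, hw, map_one, map_one]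
    · rw [h2]
      have hft3 : Algebra.FiniteType R (MvPolynomial (Fin 1) (A ⧸ Ideal.span {f})) :=
        Algebra.FiniteType.trans (S := A ⧸ Ideal.span {f}) inferInstance inferInstance
      exact iso_alg hP.toUni ((lnE f (algebraMap R A c)).restrictScalars R) (p_poly_fin hP 1 hA)
    · rw [h1]
      exact ih

end

theorem conv : S_CONV := by
  intro R _ sep P hP A _ _ _ S f hS hA hf
  have hft : Algebra.FiniteType R (MvPolynomial (Fin 2) A) :=
    Algebra.FiniteType.trans (S := A) inferInstance inferInstance
  have hft2 : Algebra.FiniteType R (Cov S f) :=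
    Algebra.FiniteType.trans (S := MvPolynomial (Fin 2) A) inferInstance inferInstance
  refine ring_total hP (cf S f) (quot_mk hP _ _ ?_) ?_
  · have h1 : Ideal.span {eqn S f} ⊔ Ideal.span {(C f : MvPolynomial (Fin 2) A)} =
        Ideal.span {(C f : MvPolynomial (Fin 2) A)} ⊔
      Ideal.span {∏ c ∈ S, (X 1 - C (algebraMap R A c) : MvPolynomial (Fin 2) A)} := by
      apply le_antisymm
      · refine sup_le ?_ le_sup_left
        rw [Ideal.span_singleton_le_iff_mem, eqn]
        refine sub_mem ?_ ?_
        · exact Ideal.mem_sup_right (Ideal.mem_span_singleton_self _)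
        · exact Ideal.mul_mem_left _ _ (Ideal.mem_sup_left (Ideal.mem_span_singleton_self _))
      · refine sup_le le_sup_right ?_
        rw [Ideal.span_singleton_le_iff_mem]
        have h2 : ∏ c ∈ S, (X 1 - C (algebraMap R A c) : MvPolynomial (Fin 2) A) =
            eqn S f + X 0 * C f := by
          rw [eqn]
          ring
        rw [h2]
        refine add_mem ?_ ?_
        · exact Ideal.mem_sup_left (Ideal.mem_span_singleton_self _)
        · exact Ideal.mul_mem_left _ _ (Ideal.mem_sup_right (Ideal.mem_span_singleton_self _))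
    rw [h1]
    exact p_lines hP f S hS hf
  · have h3 := ring_open hP f hf hA
    have hft3 : Algebra.FiniteType R (Localization.Away f) :=
      Algebra.FiniteType.trans (S := A) inferInstance inferInstance
    have hft4 : Algebra.FiniteType R (MvPolynomial (Fin 1) (Localization.Away f)) :=
      Algebra.FiniteType.trans (S := Localization.Away f) inferInstance inferInstance
    exact iso_alg hP.toUni ((opnE S f).restrictScalars R) (p_poly_fin hP 1 h3)

end Pool.Agent.P8H62.DC
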