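import Pool.Agent.P8H62.DC.Aff

/-!
# Project DC, package REG: the cover is regular

The open parts `f ≠ 0` and `h_a ≠ 0`, `a ∈ S`, cover the scheme; the first is the spectrum of `A_f[z]`, and the
second is the open part `h_a(a + s f) ≠ 0` of the spectrum of `A[s]`.
-/

set_option autoImplicit false

open CategoryTheory AlgebraicGeometry MvPolynomial
open Pool.Agent.P8H48.DC Pool.Agent.R904.CU Pool.Agent.R904.TR

namespace Pool.Agent.P8H62.DC

section hopn

variable {R A : Type} [CommRing R] [CommRing A] [Algebra R A] (S : Finset R) (f : A) (a : R)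

open Classical in
/-- `∏_{b ≠ a} (a + s f - b)` -/
noncomputable def hs : MvPolynomial (Fin 1) A :=
  ∏ b ∈ S.erase a, (C (algebraMap R A a) + X 0 * C f - C (algebraMap R A b))

open Classical in
lemma ch_eq : ch S f a =
    ∏ b ∈ S.erase a, (cz S f - algebraMap A (Cov S f) (algebraMap R A b)) := by
  rw [ch, map_prod]
  rfl

variable (ha : a ∈ S)

include ha in
lemma ch_rel : (cz S f - algebraMap A (Cov S f) (algebraMap R A a)) * ch S f a =
    ct S f * algebraMap A (Cov S f) f := by
  classical
  rw [← cov_rel, ch_eq, ← Finset.mul_prod_erase S _ ha]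

/-- to `A[s]` -/
noncomputable def ph : Cov S f →ₐ[A] MvPolynomial (Fin 1) A :=
  Ideal.Quotient.liftₐ _ (aeval ![X 0 * hs S f a, C (algebraMap R A a) + X 0 * C f]) (by
    classical
    intro x hx
    obtain ⟨b, rfl⟩ := Ideal.mem_span_singleton'.1 hx
    have h : (aeval ![X 0 * hs S f a, C (algebraMap R A a) + X 0 * C f] :
        MvPolynomial (Fin 2) A →ₐ[A] MvPolynomial (Fin 1) A) (eqn S f) = 0 := by
      rw [eqn, map_sub, map_prod, map_mul, aeval_X, aeval_C]
      have h3 : ∏ c ∈ S, (aeval ![X 0 * hs S f a, C (algebraMap R A a) + X 0 * C f] :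
          MvPolynomial (Fin 2) A →ₐ[A] MvPolynomial (Fin 1) A) (X 1 - C (algebraMap R A c)) =
          ∏ c ∈ S, (C (algebraMap R A a) + X 0 * C f - C (algebraMap R A c)) := by
        refine Finset.prod_congr rfl fun c _ => ?_
        rw [map_sub, aeval_X, aeval_C]
        rfl
      rw [h3, ← Finset.mul_prod_erase S _ ha]
      change _ * hs S f a - X 0 * hs S f a * C f = 0
      ring
    rw [map_mul, h, mul_zero])

lemma ph_t : ph S f a ha (ct S f) = X 0 * hs S f a := by
  change (aeval ![X 0 * hs S f a, C (algebraMap R A a) + X 0 * C f] :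
        MvPolynomial (Fin 2) A →ₐ[A] MvPolynomial (Fin 1) A) (X 0) = _
  rw [aeval_X]
  rfl

lemma ph_z : ph S f a ha (cz S f) = C (algebraMap R A a) + X 0 * C f := by
  change (aeval ![X 0 * hs S f a, C (algebraMap R A a) + X 0 * C f] :
        MvPolynomial (Fin 2) A →ₐ[A] MvPolynomial (Fin 1) A) (X 1) = _
  rw [aeval_X]
  rfl

lemma ph_ch : ph S f a ha (ch S f a) = hs S f a := by
  classical
  rw [ch_eq, map_prod, hs]
  refine Finset.prod_congr rfl fun b _ => ?_
  rw [map_sub, ph_z, AlgHom.commutes]
  rfl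

/-- the open part of the cover -/
abbrev Qh : Type := Localization.Away (ch S f a)

/-- the open part of the line -/
abbrev Nh : Type := Localization.Away (hs S f a)

lemma unit_n : IsUnit (((algebraMap (MvPolynomial (Fin 1) A) (Nh S f a)).comp
    (ph S f a ha).toRingHom) (ch S f a)) := by
  change IsUnit (algebraMap (MvPolynomial (Fin 1) A) (Nh S f a) (ph S f a ha (ch S f a)))
  rw [ph_ch]
  exact IsLocalization.Away.algebraMap_isUnit (hs S f a)

/-- forward -/
noncomputable def Fh : Qh S f a →+* Nh S f a :=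
  IsLocalization.Away.lift (S := Qh S f a) (ch S f a) (unit_n S f a ha)

lemma fh_alg (q : Cov S f) : Fh S f a ha (algebraMap (Cov S f) (Qh S f a) q) =
    algebraMap (MvPolynomial (Fin 1) A) (Nh S f a) (ph S f a ha q) :=
  IsLocalization.Away.lift_eq (S := Qh S f a) (ch S f a) (unit_n S f a ha) q

/-- the inverse of `h` -/
noncomputable def hi : Qh S f a := IsLocalization.Away.invSelf (ch S f a)

lemma h_hi : algebraMap (Cov S f) (Qh S f a) (ch S f a) * hi S f a = 1 :=
  IsLocalization.Away.mul_invSelf _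

/-- back, from `A[s]` -/
noncomputable def ps : MvPolynomial (Fin 1) A →ₐ[A] Qh S f a :=
  aeval fun _ => algebraMap (Cov S f) (Qh S f a) (ct S f) * hi S f a

include ha in
lemma ps_z : ps S f a (C (algebraMap R A a) + X 0 * C f) =
    algebraMap (Cov S f) (Qh S f a) (cz S f) := by
  rw [ps, map_add, map_mul, aeval_X, aeval_C, aeval_C]
  have h1 := congrArg (algebraMap (Cov S f) (Qh S f a)) (ch_rel S f a ha)
  rw [map_mul, map_mul, map_sub, ← IsScalarTower.algebraMap_apply A (Cov S f) (Qh S f a),
    ← IsScalarTower.algebraMap_apply A (Cov S f) (Qh S f a)] at h1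
  have h2 := h_hi S f a
  linear_combination (-hi S f a) * h1 + (algebraMap (Cov S f) (Qh S f a) (cz S f) -
    algebraMap A (Qh S f a) (algebraMap R A a)) * h2

include ha in
lemma ps_hs : ps S f a (hs S f a) = algebraMap (Cov S f) (Qh S f a) (ch S f a) := by
  classical
  have h0 := congrArg (algebraMap (Cov S f) (Qh S f a)) (ch_eq S f a)
  refine Eq.trans ?_ h0.symm
  rw [map_prod, hs, map_prod]
  refine Finset.prod_congr rfl fun b _ => ?_
  rw [map_sub, ps_z S f a ha, map_sub]
  congr 1
  rw [← IsScalarTower.algebraMap_apply A (Cov S f) (Qh S f a)]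
  exact (ps S f a).commutes _

include ha in
lemma unit_q : IsUnit ((ps S f a).toRingHom (hs S f a)) := by
  change IsUnit (ps S f a (hs S f a))
  rw [ps_hs S f a ha]
  exact IsLocalization.Away.algebraMap_isUnit (ch S f a)

/-- back -/
noncomputable def Gh : Nh S f a →+* Qh S f a :=
  IsLocalization.Away.lift (S := Nh S f a) (hs S f a) (unit_q S f a ha)

lemma gh_alg (q : MvPolynomial (Fin 1) A) :
    Gh S f a ha (algebraMap (MvPolynomial (Fin 1) A) (Nh S f a) q) = ps S f a q :=
  IsLocalization.Away.lift_eq (S := Nh S f a) (hs S f a) (unit_q S f a ha) q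

lemma gh_fh : (Gh S f a ha).comp (Fh S f a ha) = RingHom.id (Qh S f a) := by
  refine IsLocalization.ringHom_ext (Submonoid.powers (ch S f a)) ?_
  refine Ideal.Quotient.ringHom_ext ?_
  refine MvPolynomial.ringHom_ext ?_ ?_
  · intro x
    change Gh S f a ha (Fh S f a ha (algebraMap (Cov S f) (Qh S f a) (algebraMap A (Cov S f) x))) =
      algebraMap (Cov S f) (Qh S f a) (algebraMap A (Cov S f) x)
    rw [fh_alg, AlgHom.commutes, gh_alg, AlgHom.commutes,
      ← IsScalarTower.algebraMap_apply A (Cov S f) (Qh S f a)]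
  · intro i
    fin_cases i
    · change Gh S f a ha (Fh S f a ha (algebraMap (Cov S f) (Qh S f a) (ct S f))) =
        algebraMap (Cov S f) (Qh S f a) (ct S f)
      rw [fh_alg, ph_t, gh_alg, map_mul, ps_hs S f a ha, ps, aeval_X, mul_assoc,
        mul_comm (hi S f a), h_hi, mul_one]
    · change Gh S f a ha (Fh S f a ha (algebraMap (Cov S f) (Qh S f a) (cz S f))) =
        algebraMap (Cov S f) (Qh S f a) (cz S f)
      rw [fh_alg, ph_z, gh_alg, ps_z S f a ha]

lemma fh_gh : (Fh S f a ha).comp (Gh S f a ha) = RingHom.id (Nh S f a) := by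
  refine IsLocalization.ringHom_ext (Submonoid.powers (hs S f a)) ?_
  refine MvPolynomial.ringHom_ext ?_ ?_
  · intro x
    change Fh S f a ha (Gh S f a ha (algebraMap (MvPolynomial (Fin 1) A) (Nh S f a)
      (algebraMap A (MvPolynomial (Fin 1) A) x))) =
      algebraMap (MvPolynomial (Fin 1) A) (Nh S f a) (algebraMap A (MvPolynomial (Fin 1) A) x)
    rw [gh_alg, AlgHom.commutes, IsScalarTower.algebraMap_apply A (Cov S f) (Qh S f a), fh_alg,
      AlgHom.commutes]
  · intro i
    have hi0 : i = 0 := Subsingleton.elim _ _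
    subst hi0
    change Fh S f a ha (Gh S f a ha (algebraMap (MvPolynomial (Fin 1) A) (Nh S f a) (X 0))) =
      algebraMap (MvPolynomial (Fin 1) A) (Nh S f a) (X 0)
    have h1 := congrArg (Fh S f a ha) (h_hi S f a)
    rw [map_mul, fh_alg, ph_ch, map_one] at h1
    rw [gh_alg, ps, aeval_X, map_mul, fh_alg, ph_t, map_mul, mul_assoc, h1, mul_one]

/-- **The open part `h ≠ 0`.** -/
noncomputable def hopnE : Nh S f a ≃+* Qh S f a :=
  RingEquiv.ofRingHom (Gh S f a ha) (Fh S f a ha) (gh_fh S f a ha) (fh_gh S f a ha)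

end hopn

lemma reg_cover {Q : Type} [CommRing Q]
    (h : ∀ x : PrimeSpectrum Q, ∃ w : Q, w ∉ x.asIdeal ∧ IsRegularRing (Localization.Away w)) :
    IsRegularScheme (sp Q) := by
  refine isRegularScheme_of_cover fun x => ?_
  obtain ⟨w, hw, hreg⟩ := h x
  have hop : IsOpenImmersion (Spec.map (CommRingCat.ofHom (algebraMap Q (Localization.Away w)))) :=
    IsOpenImmersion.of_isLocalization w
  have hr : Set.range (Spec.map (CommRingCat.ofHom (algebraMap Q (Localization.Away w)))) =
      {x : PrimeSpectrum Q | w ∉ x.asIdeal} :=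
    PrimeSpectrum.localization_away_comap_range (Localization.Away w) w
  refine ⟨Spec (.of (Localization.Away w)), _, hop, ?_, isRegularScheme_spec _⟩
  rw [hr]
  exact hw

theorem reg : S_REG := by
  classical
  intro R A _ _ _ _ S f hS
  refine reg_cover fun x => ?_
  by_cases hf : cf S f ∈ x.asIdeal
  · have h1 : ∏ c ∈ S, (cz S f - algebraMap A (Cov S f) (algebraMap R A c)) ∈ x.asIdeal := by
      rw [cov_rel]
      exact Ideal.mul_mem_left _ _ hf
    rw [x.isPrime.prod_mem_iff] at h1
    obtain ⟨a, ha, ha2⟩ := h1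
    refine ⟨ch S f a, ?_, ?_⟩
    · intro h2
      rw [ch_eq, x.isPrime.prod_mem_iff] at h2
      obtain ⟨b, hb, hb2⟩ := h2
      rw [Finset.mem_erase] at hb
      have h3 := x.asIdeal.sub_mem hb2 ha2
      have h4 : cz S f - algebraMap A (Cov S f) (algebraMap R A b) -
          (cz S f - algebraMap A (Cov S f) (algebraMap R A a)) =
          algebraMap A (Cov S f) (algebraMap R A (a - b)) := by
        rw [map_sub, map_sub]
        ring
      rw [h4] at h3
      have hu : IsUnit (algebraMap A (Cov S f) (algebraMap R A (a - b))) :=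
        ((hS a ha b hb.2 (Ne.symm hb.1)).map (algebraMap R A)).map (algebraMap A (Cov S f))
      exact x.isPrime.ne_top (Ideal.eq_top_of_isUnit_mem _ h3 hu)
    · have hreg : IsRegularRing (Nh S f a) :=
        isRegularRing_localization (MvPolynomial (Fin 1) A) (Submonoid.powers (hs S f a)) _
      exact IsRegularRing.of_ringEquiv (hopnE S f a ha)
  · refine ⟨cf S f, hf, ?_⟩
    have hreg : IsRegularRing (Localization.Away f) :=
      isRegularRing_localization A (Submonoid.powers f) _
    exact IsRegularRing.of_ringEquiv (opnE S f).toRingEquiv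

end Pool.Agent.P8H62.DC
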